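import Pool.Agent.H93.BSD.Fin

/-!
# The Barnes - Swinnerton-Dyer conjecture for forms with nearly equal digits of one parity
-/

namespace Pool.Agent.Results.MP_a08808_nt.NearlyEqualDigits

open Pool.Agent.H93.BSD

/-- Let `M` be the product of the matrices with rows `(d_i, -1)` and `(1, 0)`, where the integers
`d_0, ..., d_(k-1)` are at least `24`, all of the same parity, and the largest is at most `5/4` of
the smallest, and let `Q` be a nonzero rational multiple of a form equivalent over `GL_2(ℤ)` to the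
form fixed by `M`. -/
theorem result (k : ℕ) (hk : 0 < k) (d : ℕ → ℤ) (hd : ∀ i < k, 24 ≤ d i)
    (hratio : ∀ i < k, ∀ j < k, 4 * d i ≤ 5 * d j)
    (hpar : ∀ i < k, ∀ j < k, Even (d i + d j))
    (M : Matrix (Fin 2) (Fin 2) ℤ)
    (hM : M = ((List.range k).map fun i => !![d i, -1; 1, 0]).prod)
    (e f g h : ℤ) (hU : e * h - f * g = 1 ∨ e * h - f * g = -1) (t : ℚ) (ht : t ≠ 0)
    (a b c : ℚ)
    (hQ : ∀ u v : ℚ, a * u ^ 2 + b * u * v + c * v ^ 2 =
      t * (M 1 0 * (e * u + f * v) ^ 2 + (M 1 1 - M 0 0) * (e * u + f * v) * (g * u + h * v)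
        - M 0 1 * (g * u + h * v) ^ 2)) :
    0 < b ^ 2 - 4 * a * c ∧
    (∀ u v : ℚ, a * u ^ 2 + b * u * v + c * v ^ 2 = 0 → u = 0 ∧ v = 0) ∧
    ∀ m : ℝ × ℝ → ℝ,
      (∀ x : ℝ × ℝ, m x = ⨅ z : ℤ × ℤ,
        |(a : ℝ) * (x.1 + (z.1 : ℝ)) ^ 2 + (b : ℝ) * (x.1 + (z.1 : ℝ)) * (x.2 + (z.2 : ℝ))
          + (c : ℝ) * (x.2 + (z.2 : ℝ)) ^ 2|) →
      ∃ m₁ : ℚ,
        (∃ p : ℚ × ℚ, m (p.1, p.2) = m₁) ∧
        (∀ x : ℝ × ℝ, m x ≤ m₁) ∧
        (∃ ε : ℝ, 0 < ε ∧ ∀ x : ℝ × ℝ, m x < m₁ → m x ≤ m₁ - ε) ∧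
        (Even (d 0) → ∃ p : ℚ × ℚ, m (p.1, p.2) < m₁ ∧
          ∀ y : ℝ × ℝ, m y < m₁ → m y ≤ m (p.1, p.2)) := by
  -- the periodic sequence of digits
  obtain ⟨D, hD⟩ : ∃ D : ℤ → ℤ, D = fun n : ℤ => d (n % (k : ℤ)).toNat := ⟨_, rfl⟩
  have hk' : (0 : ℤ) < k := by exact_mod_cast hk
  have hDi : ∀ n, ∃ i < k, D n = d i := by
    intro n
    have h1 := Int.emod_nonneg n hk'.ne'
    have h2 := Int.emod_lt_of_pos n hk'
    refine ⟨(n % (k : ℤ)).toNat, ?_, by rw [hD]⟩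
    zify
    rw [Int.toNat_of_nonneg h1]
    exact h2
  have hDper : ∀ n, D (n + k) = D n := by
    intro n
    rw [hD]
    simp
  have hDd : ∀ i < k, D i = d i := by
    intro i hi
    rw [hD]
    have : ((i : ℤ) % k).toNat = i := by
      rw [Int.emod_eq_of_lt (by positivity) (by exact_mod_cast hi)]
      simp
    simp only [this]
  have hne : (Finset.range k).Nonempty := ⟨0, by simpa using hk⟩
  obtain ⟨i0, hi0, hmin⟩ := Finset.exists_min_image (Finset.range k) d hne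
  obtain ⟨i1, hi1, hmax⟩ := Finset.exists_max_image (Finset.range k) d hne
  rw [Finset.mem_range] at hi0 hi1
  have hDa : ∀ n, d i0 ≤ D n := by
    intro n
    obtain ⟨i, hi, e⟩ := hDi n
    rw [e]
    exact hmin i (Finset.mem_range.2 hi)
  have hDb : ∀ n, D n ≤ d i1 := by
    intro n
    obtain ⟨i, hi, e⟩ := hDi n
    rw [e]
    exact hmax i (Finset.mem_range.2 hi)
  obtain ⟨A', B', s', tr, R, htr, hR, hR2, e1, e2, e3, cA, cB, cs, hch, hb⟩ :=
    setup hk hDper hDa hDb (hd i0 hi0) (hratio i1 hi1 i0 hi0)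
  have hM' : M = P D 0 k := by rw [hM]; exact range_prod D d k hDd
  set A : ℤ → ℝ := fun n => (A' n : ℝ) / R with hA
  set B : ℤ → ℝ := fun n => (B' n : ℝ) / R with hB
  set s : ℤ → ℝ := fun n => ((s' n : ℚ) : ℝ) with hs
  -- coefficients
  have hm10 : M 1 0 = A' 0 := by rw [hM', e1]
  have hm01 : M 0 1 = - A' (-1) := by rw [hM', e2]
  have hm11 : M 1 1 - M 0 0 = - B' 0 := by rw [hM', ← e3]; ring
  have hm10q : ((M 1 0 : ℤ) : ℚ) = A' 0 := by rw [hm10]
  have hm01q : ((M 0 1 : ℤ) : ℚ) = - A' (-1) := by rw [hm01]; push_cast; ring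
  have hm11q : ((M 1 1 : ℤ) : ℚ) - ((M 0 0 : ℤ) : ℚ) = - B' 0 := by
    rw [← Int.cast_sub, hm11]; push_cast; ring
  have hQ2 : ∀ u v : ℚ, a * u ^ 2 + b * u * v + c * v ^ 2 =
      t * (A' 0 * (e * u + f * v) ^ 2 - B' 0 * ((e * u + f * v) * (g * u + h * v))
        + A' (-1) * (g * u + h * v) ^ 2) := by
    intro u v
    rw [hQ, hm10q, hm01q, hm11q]
    ring
  have ca : a = t * (A' 0 * e ^ 2 - B' 0 * (e * g) + A' (-1) * g ^ 2) := by
    have := hQ2 1 0
    linear_combination this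
  have cc : c = t * (A' 0 * f ^ 2 - B' 0 * (f * h) + A' (-1) * h ^ 2) := by
    have := hQ2 0 1
    linear_combination this
  have cb : b = t * (2 * A' 0 * e * f - B' 0 * (e * h + f * g) + 2 * A' (-1) * g * h) := by
    have := hQ2 1 1
    linear_combination this - ca - cc
  have hdiscZ : (B' 0 : ℝ) ^ 2 - 4 * A' 0 * A' (-1) = R ^ 2 := by
    have h1 := hch.disc 0
    rw [hA, hB] at h1
    simp only [zero_sub] at h1
    have hR0 := hR.ne'
    field_simp at h1
    linear_combination h1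
  have hdisc : b ^ 2 - 4 * a * c = t ^ 2 * ((tr : ℚ) ^ 2 - 4) := by
    have h1 : (B' 0 : ℝ) ^ 2 - 4 * A' 0 * A' (-1) = (tr : ℝ) ^ 2 - 4 := by rw [hdiscZ, hR2]
    have h2 : (B' 0 : ℚ) ^ 2 - 4 * A' 0 * A' (-1) = (tr : ℚ) ^ 2 - 4 := by exact_mod_cast h1
    have h3 : ((e : ℚ) * h - f * g) ^ 2 = 1 := by
      have : (e * h - f * g) ^ 2 = 1 := by
        rcases hU with hU | hU <;> · rw [hU]; norm_num
      exact_mod_cast this
    rw [ca, cb, cc, ← h2]
    linear_combination t ^ 2 * ((B' 0 : ℚ) ^ 2 - 4 * A' 0 * A' (-1)) * h3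
  have hDpos : (0 : ℚ) < (tr : ℚ) ^ 2 - 4 := by
    have : (3 : ℚ) ≤ tr := by exact_mod_cast htr
    nlinarith
  have ht2 : 0 < t ^ 2 := by positivity
  have hdpos : 0 < b ^ 2 - 4 * a * c := by rw [hdisc]; positivity
  refine ⟨hdpos, ?_, ?_⟩
  · -- anisotropy
    have hns : ¬ IsSquare (tr ^ 2 - 4) := by
      rintro ⟨r, hr⟩
      have h1 : |r| * |r| = tr ^ 2 - 4 := by rw [abs_mul_abs_self, hr]
      have h2 : |r| < tr := by nlinarith [abs_nonneg r]
      have h3 : |r| ≤ tr - 1 := by omega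
      nlinarith [abs_nonneg r]
    have hnsq : ¬ IsSquare ((tr : ℚ) ^ 2 - 4) := by
      intro hsq
      apply hns
      have : ((tr ^ 2 - 4 : ℤ) : ℚ) = (tr : ℚ) ^ 2 - 4 := by push_cast; ring
      rw [← this] at hsq
      exact Rat.isSquare_intCast_iff.1 hsq
    have hnd : ∀ w : ℚ, w ^ 2 ≠ b ^ 2 - 4 * a * c := by
      intro w hw
      rw [hdisc] at hw
      apply hnsq
      refine ⟨w / t, ?_⟩
      field_simp
      linear_combination -hw
    intro u v huv
    by_cases hv : v = 0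
    · refine ⟨?_, hv⟩
      rw [hv] at huv
      have h1 : a * u ^ 2 = 0 := by linear_combination huv
      rcases mul_eq_zero.1 h1 with h2 | h2
      · exfalso
        apply hnd b
        rw [h2]
        ring
      · exact pow_eq_zero_iff (two_ne_zero) |>.1 h2
    · exfalso
      apply hnd ((2 * a * u + b * v) / v)
      field_simp
      linear_combination 4 * a * huv
  intro m hm
  -- transfer
  have htR : 0 < |(t : ℝ)| * R := mul_pos (abs_pos.2 (by exact_mod_cast ht)) hR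
  have hQR : ∀ u v : ℝ, |(a : ℝ) * u ^ 2 + b * u * v + c * v ^ 2| =
      (|(t : ℝ)| * R) * |q A B 0 (e * u + f * v) (g * u + h * v)| := by
    intro u v
    have ca' : (a : ℝ) = t * (A' 0 * e ^ 2 - B' 0 * (e * g) + A' (-1) * g ^ 2) := by
      rw [ca]; push_cast; ring
    have cb' : (b : ℝ) = t * (2 * A' 0 * e * f - B' 0 * (e * h + f * g) + 2 * A' (-1) * g * h) := by
      rw [cb]; push_cast; ring
    have cc' : (c : ℝ) = t * (A' 0 * f ^ 2 - B' 0 * (f * h) + A' (-1) * h ^ 2) := by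
      rw [cc]; push_cast; ring
    have e4 : (a : ℝ) * u ^ 2 + b * u * v + c * v ^ 2 =
        (t * R) * q A B 0 (e * u + f * v) (g * u + h * v) := by
      unfold q
      rw [ca', cb', cc', hA, hB]
      simp only [zero_sub]
      have hR0 := hR.ne'
      field_simp
      ring
    rw [e4, abs_mul, abs_mul, abs_of_pos hR]
  have hmx : ∀ x : ℝ × ℝ, m x = (|(t : ℝ)| * R) * mu A B (e * x.1 + f * x.2, g * x.1 + h * x.2) := by
    intro x
    rw [hm x]
    exact transfer htR.le hU hQR x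
  -- rational preimages of rational points
  have hpre : ∀ p : ℚ × ℚ, ∃ p' : ℚ × ℚ,
      m (p'.1, p'.2) = (|(t : ℝ)| * R) * mu A B ((p.1 : ℝ), (p.2 : ℝ)) := by
    intro p
    rcases hU with hU | hU
    · have hU' : (e : ℝ) * h - f * g = 1 := by exact_mod_cast hU
      refine ⟨(h * p.1 - f * p.2, - g * p.1 + e * p.2), ?_⟩
      rw [hmx]
      congr 2
      ext
      · push_cast; linear_combination (p.1 : ℝ) * hU'
      · push_cast; linear_combination (p.2 : ℝ) * hU'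
    · have hU' : (e : ℝ) * h - f * g = -1 := by exact_mod_cast hU
      refine ⟨(-(h * p.1 - f * p.2), -(- g * p.1 + e * p.2)), ?_⟩
      rw [hmx]
      congr 2
      ext
      · push_cast; linear_combination -(p.1 : ℝ) * hU'
      · push_cast; linear_combination -(p.2 : ℝ) * hU'
  have hratR : ∀ {v : ℝ}, (∃ r : ℚ, v = r / R) → ∃ r : ℚ, (|(t : ℝ)| * R) * v = r := by
    rintro v ⟨r, rfl⟩
    refine ⟨|t| * r, ?_⟩
    have hR0 := hR.ne'
    field_simp
    push_cast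
    ring
  -- the minimum of the corner values
  have hcA : ∀ n, A (n + k) = A n := fun n => by simp only [hA, cA n]
  have hcB : ∀ n, B (n + k) = B n := fun n => by simp only [hB, cB n]
  have hcs : ∀ n, s (n + k) = s n := fun n => by simp only [hs, cs n]
  have hVmin : ∀ σ : ℚ, ∃ v : ℝ, (∃ n, v = Vp A B s σ n ∨ v = Vm A B s σ n) ∧
      (∀ n, v ≤ Vp A B s σ n ∧ v ≤ Vm A B s σ n) ∧ ∃ r : ℚ, v = r / R := by
    intro σ
    obtain ⟨N, hN⟩ := per_min (k := 2 * k) (by omega) (f := fun n => min (Vp A B s σ n) (Vm A B s σ n))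
      (V_per hcA hcB hcs σ)
    refine ⟨min (Vp A B s σ N) (Vm A B s σ N), ⟨N, min_choice _ _⟩, fun n => ?_, ?_⟩
    · exact ⟨(hN n).trans (min_le_left _ _), (hN n).trans (min_le_right _ _)⟩
    · rcases min_choice (Vp A B s σ N) (Vm A B s σ N) with h1 | h1
      · rw [h1]
        exact (V_rat A' B' s' R σ N).1
      · rw [h1]
        exact (V_rat A' B' s' R σ N).2
  by_cases hev : Even (d 0)
  · -- even digits
    have hDev : ∀ n, Even (D n) := by
      intro n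
      obtain ⟨i, hi, e⟩ := hDi n
      rw [e]
      exact (Int.even_add.1 (hpar i hi 0 hk)).2 hev
    obtain ⟨v0, ⟨n0, hn0⟩, hv0, hr0⟩ := hVmin 0
    obtain ⟨v1, hv1, hv1', -⟩ := hVmin 1
    have h0 : ∀ n, Vp A B s ((0 : ℚ) : ℝ) n = (B n - A n - A (n - 1)) / 4 ∧
        Vm A B s ((0 : ℚ) : ℝ) n = (B n - A n - A (n - 1)) / 4 := by
      intro n
      rw [Rat.cast_zero]
      exact ⟨Vp_zero n, Vm_zero n⟩
    rw [Rat.cast_one] at hv1 hv1'
    obtain ⟨q0, q1, q2, q3⟩ := core_even hch hb hDev (v0 := v0) (v1 := v1)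
      ⟨n0, by rw [(h0 n0).1, (h0 n0).2] at hn0; simpa using hn0⟩
      (fun n => by have := (hv0 n).1; rwa [(h0 n).1] at this) hv1 hv1'
    obtain ⟨r0, hr0⟩ := hratR hr0
    obtain ⟨p0, hp0⟩ := pt_rat s' 0
    obtain ⟨p1, hp1⟩ := pt_rat s' 1
    rw [Rat.cast_zero] at hp0
    rw [Rat.cast_one] at hp1
    obtain ⟨x0, hx0⟩ := hpre p0
    obtain ⟨x1, hx1⟩ := hpre p1
    rw [← hp0, q0] at hx0
    rw [← hp1, q1] at hx1
    have hlt := mul_lt_mul_of_pos_left q2 htR
    have htop : ∀ x : ℝ × ℝ, m x ≤ (|(t : ℝ)| * R) * v1 ∨ m x = (|(t : ℝ)| * R) * v0 := by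
      intro x
      rw [hmx x]
      rcases q3 (e * x.1 + f * x.2, g * x.1 + h * x.2) with h1 | h1
      · exact Or.inl (mul_le_mul_of_nonneg_left h1 htR.le)
      · exact Or.inr (by rw [h1])
    refine ⟨r0, ⟨x0, by rw [hx0, hr0]⟩, fun x => ?_, ⟨(|(t : ℝ)| * R) * v0 - (|(t : ℝ)| * R) * v1,
      by linarith, fun x hx => ?_⟩, fun _ => ⟨x1, ?_, fun y hy => ?_⟩⟩
    · rw [← hr0]
      rcases htop x with h1 | h1
      · linarith
      · exact h1.le
    · rw [← hr0] at hx ⊢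
      rcases htop x with h1 | h1
      · linarith
      · exact absurd h1 hx.ne
    · rw [hx1, ← hr0]
      exact hlt
    · rw [← hr0] at hy
      rw [hx1]
      rcases htop y with h1 | h1
      · exact h1
      · exact absurd h1 hy.ne
  · -- odd digits
    have hDodd : ∀ n, Odd (D n) := by
      intro n
      obtain ⟨i, hi, e⟩ := hDi n
      rw [e, ← Int.not_even_iff_odd]
      intro hcon
      exact hev ((Int.even_add.1 (hpar i hi 0 hk)).1 hcon)
    obtain ⟨v0, hv0, hv0', hr0⟩ := hVmin (1 / 2)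
    have hc : (((1 / 2 : ℚ)) : ℝ) = 1 / 2 := by norm_num
    rw [hc] at hv0 hv0'
    obtain ⟨q0, q1, q2⟩ := core_odd hch hb hDodd hv0 hv0'
    obtain ⟨r0, hr0⟩ := hratR hr0
    obtain ⟨p0, hp0⟩ := pt_rat s' (1 / 2)
    rw [hc] at hp0
    obtain ⟨x0, hx0⟩ := hpre p0
    rw [← hp0, q0] at hx0
    set w := 1 / 4 - 29 / 50 * (1 / ((d i0 : ℤ) : ℝ)) with hw
    have hlt := mul_lt_mul_of_pos_left q1 htR
    have htop : ∀ x : ℝ × ℝ, m x ≤ (|(t : ℝ)| * R) * w ∨ m x = (|(t : ℝ)| * R) * v0 := by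
      intro x
      rw [hmx x]
      rcases q2 (e * x.1 + f * x.2, g * x.1 + h * x.2) with h1 | h1
      · exact Or.inl (mul_le_mul_of_nonneg_left h1 htR.le)
      · exact Or.inr (by rw [h1])
    refine ⟨r0, ⟨x0, by rw [hx0, hr0]⟩, fun x => ?_, ⟨(|(t : ℝ)| * R) * v0 - (|(t : ℝ)| * R) * w,
      by linarith, fun x hx => ?_⟩, fun h => absurd h hev⟩
    · rw [← hr0]
      rcases htop x with h1 | h1
      · linarith
      · exact h1.le
    · rw [← hr0] at hx ⊢
      rcases htop x with h1 | h1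
      · linarith
      · exact absurd h1 hx.ne

end Pool.Agent.Results.MP_a08808_nt.NearlyEqualDigits
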